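import Pool.Agent.TH194.BL.LskG
import Pool.Agent.R418.UP.B
import Pool.Agent.W255.LT.LTP

set_option autoImplicit false

/-! The values of a polynomial which are squares modulo small primes: an upper bound, uniform in the polynomial, by
the arithmetic large sieve and Weil's bound. -/

namespace Pool.Agent.R418.CF

open Polynomial Finset
open Pool.Agent.R418.UP

open Classical in
/-- the residues modulo `p` at which `g h ^ 2` is a square -/
noncomputable def Sq (g h : ℤ[X]) (p : ℕ) [NeZero p] : Finset (ZMod p) :=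
  (univ : Finset (ZMod p)).filter (fun x =>
    IsSquare ((g.map (Int.castRingHom (ZMod p))).eval x *
      (h.map (Int.castRingHom (ZMod p))).eval x ^ 2))

open Classical in
theorem local_density (g h : ℤ[X]) (D : ℕ) (hg1 : 1 ≤ g.natDegree) (hgD : g.natDegree ≤ D)
    (hhD : h.natDegree ≤ D) (p : ℕ) [hp : Fact p.Prime] (hp2 : p ≠ 2) (hb : ¬ (p : ℤ) ∣ bad g)
    (hh : ¬ (p : ℤ) ∣ h.leadingCoeff) (hpD : (8 * D) ^ 2 ≤ p) :
    ((Sq g h p).card : ℝ) ≤ 3 / 4 * p := by
  obtain ⟨h1, h2⟩ := separable_mod g hg1 p hb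
  have hF : ringChar (ZMod p) ≠ 2 := by
    rw [ZMod.ringChar_zmod_n]; exact hp2
  have h3 := Pool.Agent.H341R2.Sharp.weil_sharp hF (g.map (Int.castRingHom (ZMod p)))
    (by omega) (Pool.Agent.H341R2.not_const_mul_sq h2 (by omega))
  rw [h1, ZMod.card] at h3
  set G := g.map (Int.castRingHom (ZMod p)) with hG
  set H := h.map (Int.castRingHom (ZMod p)) with hH
  have hG0 : G ≠ 0 := h2.ne_zero
  have hH0 : H ≠ 0 := by
    intro h0
    apply hh
    have h4 : H.coeff h.natDegree = 0 := by rw [h0, coeff_zero]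
    rw [hH, coeff_map, eq_intCast, ZMod.intCast_zmod_eq_zero_iff_dvd] at h4
    exact h4
  have hGd : (G.roots.toFinset.card : ℝ) ≤ D := by
    have h4 : G.roots.toFinset.card ≤ G.natDegree := (Multiset.toFinset_card_le _).trans (card_roots' _)
    have h5 : G.roots.toFinset.card ≤ D := h4.trans (h1.le.trans hgD)
    exact_mod_cast h5
  have hHd : (H.roots.toFinset.card : ℝ) ≤ D := by
    have h4 : H.roots.toFinset.card ≤ H.natDegree := (Multiset.toFinset_card_le _).trans (card_roots' _)
    have h6 : H.natDegree ≤ h.natDegree := natDegree_map_le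
    have h5 : H.roots.toFinset.card ≤ D := h4.trans (h6.trans hhD)
    exact_mod_cast h5
  have key : ∀ x : ZMod p, (if IsSquare (G.eval x * H.eval x ^ 2) then (1 : ℝ) else 0) ≤
      1 / 2 * (1 + (quadraticChar (ZMod p) (G.eval x) : ℝ)) +
        1 / 2 * (if x ∈ G.roots.toFinset then (1 : ℝ) else 0) +
        (if x ∈ H.roots.toFinset then (1 : ℝ) else 0) := by
    intro x
    have hr1 : -1 ≤ (quadraticChar (ZMod p) (G.eval x) : ℝ) := by
      rcases quadraticChar_isQuadratic (ZMod p) (G.eval x) with h | h | h <;> rw [h] <;> norm_num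
    by_cases hHx : H.eval x = 0
    · have h4 : x ∈ H.roots.toFinset := by
        rw [Multiset.mem_toFinset, mem_roots hH0]
        exact hHx
      rw [if_pos h4]
      have h5 : (0 : ℝ) ≤ (if x ∈ G.roots.toFinset then (1 : ℝ) else 0) := by split_ifs <;> norm_num
      have h6 : (if IsSquare (G.eval x * H.eval x ^ 2) then (1 : ℝ) else 0) ≤ 1 := by
        split_ifs <;> norm_num
      linarith
    · have h5 : (0 : ℝ) ≤ (if x ∈ H.roots.toFinset then (1 : ℝ) else 0) := by split_ifs <;> norm_num
      have h6 : (0 : ℝ) ≤ (if x ∈ G.roots.toFinset then (1 : ℝ) else 0) := by split_ifs <;> norm_num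
      by_cases hs : IsSquare (G.eval x * H.eval x ^ 2)
      · rw [if_pos hs]
        have hs2 : IsSquare (G.eval x) := by
          obtain ⟨t, ht⟩ := hs
          refine ⟨t / H.eval x, ?_⟩
          field_simp
          rw [pow_two t]
          exact ht
        by_cases hGx : G.eval x = 0
        · have h4 : x ∈ G.roots.toFinset := by
            rw [Multiset.mem_toFinset, mem_roots hG0]
            exact hGx
          rw [if_pos h4, hGx, quadraticChar_zero, Int.cast_zero]
          linarith
        · have h4 : quadraticChar (ZMod p) (G.eval x) = 1 :=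
            (quadraticChar_one_iff_isSquare hGx).2 hs2
          rw [h4]
          push_cast
          linarith
      · rw [if_neg hs]
        linarith
  have hsum : ((Sq g h p).card : ℝ) ≤ ∑ x : ZMod p,
      (1 / 2 * (1 + (quadraticChar (ZMod p) (G.eval x) : ℝ)) +
        1 / 2 * (if x ∈ G.roots.toFinset then (1 : ℝ) else 0) +
        (if x ∈ H.roots.toFinset then (1 : ℝ) else 0)) := by
    have h4 : ((Sq g h p).card : ℝ) = ∑ x : ZMod p,
        (if IsSquare (G.eval x * H.eval x ^ 2) then (1 : ℝ) else 0) := by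
      rw [Sq, card_filter]
      push_cast
      rfl
    rw [h4]
    exact sum_le_sum fun x _ => key x
  rw [sum_add_distrib, sum_add_distrib, ← mul_sum, ← mul_sum, sum_add_distrib, sum_const, card_univ,
    ZMod.card, nsmul_eq_mul, mul_one, sum_ite_mem, sum_ite_mem, univ_inter, univ_inter, sum_const,
    sum_const, nsmul_eq_mul, nsmul_eq_mul, mul_one, mul_one] at hsum
  have h8 := le_abs_self (∑ x : ZMod p, (quadraticChar (ZMod p) (G.eval x) : ℝ))
  have hDp : 8 * (D : ℝ) ≤ √p := by
    apply Real.le_sqrt_of_sq_le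
    exact_mod_cast hpD
  have hpp : √(p : ℝ) * √(p : ℝ) = p := Real.mul_self_sqrt (Nat.cast_nonneg _)
  have hp1 : (1 : ℝ) ≤ √p := by
    rw [Real.one_le_sqrt]
    exact_mod_cast hp.out.one_le
  have hgDr : (g.natDegree : ℝ) ≤ D := by exact_mod_cast hgD
  have h9 : ((g.natDegree : ℝ) - 1) * √p ≤ D * √p :=
    mul_le_mul_of_nonneg_right (by linarith) (Real.sqrt_nonneg _)
  have h10 : 8 * (D : ℝ) * √p ≤ √p * √p := mul_le_mul_of_nonneg_right hDp (Real.sqrt_nonneg _)
  have h11 : 8 * (D : ℝ) * 1 ≤ 8 * (D : ℝ) * √p :=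
    mul_le_mul_of_nonneg_left hp1 (by positivity)
  rw [hpp] at h10
  linarith

end Pool.Agent.R418.CF
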