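import Pool.Agent.R418.CF.A

set_option autoImplicit false

/-! The sieve for the values of a polynomial in an interval of arbitrary position. -/

namespace Pool.Agent.R418.CF

open Polynomial Finset
open Pool.Agent.R418.UP

open Classical in
/-- the local sets, for all moduli -/
noncomputable def OmF (g h : ℤ[X]) (t : ℕ) : Finset (Fin 1 → ZMod t) :=
  if ht : t = 0 then ∅ else
    (haveI : NeZero t := ⟨ht⟩
     (univ : Finset (Fin 1 → ZMod t)).filter (fun w => w 0 ∈ Sq g h t))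

theorem card_OmF (g h : ℤ[X]) (t : ℕ) [NeZero t] : (OmF g h t).card = (Sq g h t).card := by
  classical
  have ht : t ≠ 0 := NeZero.ne t
  rw [OmF, dif_neg ht]
  refine card_bij' (fun w _ => w 0) (fun x _ => fun _ => x) ?_ ?_ ?_ ?_
  · intro w hw
    exact (mem_filter.1 hw).2
  · intro x hx
    exact mem_filter.2 ⟨mem_univ _, hx⟩
  · intro w _
    funext i
    have hi : i = 0 := Subsingleton.elim _ _
    rw [hi]
  · intro x _
    rfl

theorem mem_OmF (g h : ℤ[X]) (t : ℕ) (ht : t ≠ 0) (j : ℕ)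
    (hj : ∃ u : ℤ, (t : ℤ) ∣ g.eval (j : ℤ) * h.eval (j : ℤ) ^ 2 - u ^ 2) :
    (fun _ => ((j : ℕ) : ZMod t)) ∈ OmF g h t := by
  classical
  rw [OmF, dif_neg ht]
  have : NeZero t := ⟨ht⟩
  rw [mem_filter]
  refine ⟨mem_univ _, ?_⟩
  rw [Sq, mem_filter]
  refine ⟨mem_univ _, ?_⟩
  obtain ⟨u, hu⟩ := hj
  have e : ∀ F : ℤ[X], (F.map (Int.castRingHom (ZMod t))).eval ((j : ℕ) : ZMod t) =
      ((F.eval (j : ℤ) : ℤ) : ZMod t) := by
    intro F
    have := Polynomial.eval_intCast_map (Int.castRingHom (ZMod t)) F (j : ℤ)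
    rw [eq_intCast, Int.cast_natCast] at this
    exact this
  refine ⟨(u : ZMod t), ?_⟩
  rw [← ZMod.intCast_zmod_eq_zero_iff_dvd] at hu
  push_cast at hu
  show (g.map (Int.castRingHom (ZMod t))).eval ((j : ℕ) : ZMod t) *
    (h.map (Int.castRingHom (ZMod t))).eval ((j : ℕ) : ZMod t) ^ 2 = _
  rw [e, e]
  have h2 := sub_eq_zero.1 hu
  rw [h2, pow_two]

/-- the sieve bound -/
theorem sieve_bound (g h : ℤ[X]) (D : ℕ) (hg1 : 1 ≤ g.natDegree) (hgD : g.natDegree ≤ D)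
    (hhD : h.natDegree ≤ D) (a N j y : ℕ) (hN : 1 ≤ N) (hjN : (y ^ 2) ^ j ≤ N) (P : Finset ℕ)
    (hP : ∀ p ∈ P, p.Prime ∧ p ≤ y ∧ p ≠ 2 ∧ ¬ (p : ℤ) ∣ bad g ∧ ¬ (p : ℤ) ∣ h.leadingCoeff ∧
      (8 * D) ^ 2 ≤ p) (S : Finset ℕ) (hS : S ⊆ Ioc a (a + N))
    (hSP : ∀ m ∈ S, ∀ p ∈ P, ∃ u : ℤ, (p : ℤ) ∣ g.eval (m : ℤ) * h.eval (m : ℤ) ^ 2 - u ^ 2) :
    (S.card : ℝ) * ((P.card.choose j : ℝ) * (1 / 4) ^ j) ≤ 12 * N := by
  classical
  have hinj : Function.Injective (fun (m : ℕ) => (fun _ => m : Fin 1 → ℕ)) := by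
    intro m m' hmm
    exact congrFun hmm 0
  have h1 := Pool.Agent.TH194.BL.G.lskG (η := 1 / 4) (by norm_num) 1 N (y ^ j) j (fun _ => a) P
    (S.map ⟨fun m => (fun _ => m), hinj⟩) (OmF g h) hN (by
      rw [← pow_mul, mul_comm, pow_mul]; exact hjN) (fun t ht => (hP t ht).1) (by
      intro z hz i
      rw [mem_map] at hz
      obtain ⟨m, hm, rfl⟩ := hz
      exact hS hm) (by
      intro t ht
      obtain ⟨k1, -, k3, k4, k5, k6⟩ := hP t ht
      have : Fact t.Prime := ⟨k1⟩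
      rw [card_OmF, pow_one]
      have := local_density g h D hg1 hgD hhD t k3 k4 k5 k6
      linarith) (by
      intro z hz t ht
      rw [mem_map] at hz
      obtain ⟨m, hm, rfl⟩ := hz
      exact mem_OmF g h t (hP t ht).1.ne_zero m (hSP m hm t ht)) (by
      intro E hE
      rw [mem_powersetCard] at hE
      calc ∏ t ∈ E, t ≤ ∏ _t ∈ E, y := prod_le_prod' fun t ht => (hP t (hE.1 ht)).2.1
        _ = y ^ j := by rw [prod_const, hE.2])
  rw [card_map, pow_one] at h1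
  exact h1

theorem choose_ge : ∀ (l n : ℕ), 2 * l ≤ n → 1 ≤ l → ((n : ℝ) / (2 * l)) ^ l ≤ (n.choose l : ℝ) := by
  intro l n hln hl
  have h1 := Nat.pow_le_choose (α := ℝ) l n
  refine le_trans ?_ h1
  have hl0 : (0 : ℝ) < l := by exact_mod_cast hl
  have h2 : ((l.factorial : ℕ) : ℝ) ≤ (l : ℝ) ^ l := by exact_mod_cast Nat.factorial_le_pow l
  have h3 : (0 : ℝ) < (l.factorial : ℝ) := by exact_mod_cast Nat.factorial_pos l
  have h4 : (n : ℝ) / 2 ≤ ((n + 1 - l : ℕ) : ℝ) := by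
    have h5 : n ≤ 2 * (n + 1 - l) := by omega
    have h6 : (n : ℝ) ≤ 2 * ((n + 1 - l : ℕ) : ℝ) := by exact_mod_cast h5
    linarith
  rw [le_div_iff₀ h3]
  calc ((n : ℝ) / (2 * l)) ^ l * l.factorial ≤ ((n : ℝ) / (2 * l)) ^ l * (l : ℝ) ^ l :=
        mul_le_mul_of_nonneg_left h2 (by positivity)
    _ = ((n : ℝ) / 2) ^ l := by
        rw [← mul_pow]
        congr 1
        field_simp
    _ ≤ ((n + 1 - l : ℕ) : ℝ) ^ l := pow_le_pow_left₀ (by positivity) h4 l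

end Pool.Agent.R418.CF
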