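import Pool.Agent.R418.CF.B

set_option autoImplicit false

/-! Few values of a polynomial are squares modulo all small primes. -/

namespace Pool.Agent.R418.CF

open Polynomial Finset
open Pool.Agent.R418.UP

theorem main (δ : ℝ) (hδ : 0 < δ) (B D : ℕ) : ∃ C K : ℝ, 0 < C ∧ 0 < K ∧
    ∀ (T n N a : ℕ) (g h : ℤ[X]), 1 ≤ g.natDegree → g.natDegree ≤ D →
      (g.map (Int.castRingHom ℚ)).Separable → h ≠ 0 → h.natDegree ≤ D →
      (∀ i, |((g.coeff i : ℤ) : ℝ)| ≤ (T : ℝ) ^ B) → (∀ i, |((h.coeff i : ℤ) : ℝ)| ≤ (T : ℝ) ^ B) →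
      Real.log T ^ C ≤ N → N ≤ T → Real.log T ^ C ≤ n → ∀ S : Finset ℕ, S ⊆ Ioc a (a + N) →
      (∀ m ∈ S, ∀ p : ℕ, p.Prime → p ≠ 2 → p < n →
        ∃ u : ℤ, (p : ℤ) ∣ g.eval (m : ℤ) * h.eval (m : ℤ) ^ 2 - u ^ 2) →
      (S.card : ℝ) ≤ K * (N : ℝ) ^ (1 / 2 + δ) := by
  classical
  obtain ⟨Cb, hCb, hbadp⟩ := card_bad (D + 1) (by omega)
  obtain ⟨y₀, hy₀⟩ := Pool.Agent.W255.LT.ltp
  obtain ⟨e, he⟩ : ∃ e : ℝ, e = min δ (1 / 2) := ⟨_, rfl⟩
  have he0 : 0 < e := by rw [he]; exact lt_min hδ (by norm_num)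
  have heδ : e ≤ δ := by rw [he]; exact min_le_left _ _
  have he1 : e ≤ 1 / 2 := by rw [he]; exact min_le_right _ _
  obtain ⟨A, hA⟩ : ∃ A : ℝ, A = 3 / e := ⟨_, rfl⟩
  have hAe : A * e = 3 := by rw [hA]; field_simp
  have hA6 : 6 ≤ A := by
    rw [hA, le_div_iff₀ he0]
    linarith
  obtain ⟨C, hC⟩ : ∃ C : ℝ, C = 2 * A / e := ⟨_, rfl⟩
  have hCe : C * (e / 2) = A := by rw [hC]; field_simp
  have hCA : 4 * A ≤ C := by
    rw [hC, le_div_iff₀ he0]
    nlinarith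
  have hC0 : 0 < C := by linarith
  obtain ⟨C₂, hC₂⟩ : ∃ C₂ : ℝ, C₂ = Cb * (1 + B) + 2 * B + (8 * D) ^ 2 := ⟨_, rfl⟩
  have hC₂0 : 0 ≤ C₂ := by rw [hC₂]; positivity
  obtain ⟨L₀, hL₀⟩ : ∃ L₀ : ℝ, L₀ = max (64 * A) (max (y₀ : ℝ) (C₂ ^ 2 + 2)) := ⟨_, rfl⟩
  refine ⟨C, 12 + Real.exp L₀, hC0, by positivity, ?_⟩
  intro T n N a g h hg1 hgD hsep hh0 hhD hgc hhc hN1 hN2 hn S hS hsq
  obtain ⟨L, hL⟩ : ∃ L : ℝ, L = Real.log T := ⟨_, rfl⟩
  rw [← hL] at hN1 hn
  have hScard : S.card ≤ N := by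
    have := card_le_card hS
    rw [Nat.card_Ioc] at this
    omega
  rcases Nat.eq_zero_or_pos N with hN0 | hNn
  · have : (S.card : ℝ) = 0 := by
      have h1 : S.card = 0 := by omega
      exact_mod_cast h1
    rw [this]
    positivity
  have hN1' : (1 : ℝ) ≤ N := by exact_mod_cast hNn
  have hNpos : (0 : ℝ) < N := by linarith
  have hT1 : (1 : ℝ) ≤ T := by
    have : (N : ℝ) ≤ T := by exact_mod_cast hN2
    linarith
  have hT0 : (0 : ℝ) < T := by linarith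
  have hTe : (T : ℝ) = Real.exp L := by rw [hL, Real.exp_log hT0]
  have hNT : (N : ℝ) ≤ T := by exact_mod_cast hN2
  have hSN : (S.card : ℝ) ≤ N := by exact_mod_cast hScard
  have hbig : (1 : ℝ) ≤ (N : ℝ) ^ (1 / 2 + δ) := Real.one_le_rpow hN1' (by linarith)
  by_cases hLL : L < L₀
  · have h3 : (N : ℝ) ≤ Real.exp L₀ := by
      rw [hTe] at hNT
      exact hNT.trans (Real.exp_le_exp.2 hLL.le)
    have h4 := mul_le_mul_of_nonneg_left hbig (Real.exp_pos L₀).le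
    rw [add_mul]
    linarith
  push Not at hLL
  have hLA : 64 * A ≤ L := by
    refine le_trans ?_ hLL
    rw [hL₀]
    exact le_max_left _ _
  have hLy₀ : (y₀ : ℝ) ≤ L := by
    refine le_trans ?_ hLL
    rw [hL₀]
    exact (le_max_left _ _).trans (le_max_right _ _)
  have hLC₂ : C₂ ^ 2 + 2 ≤ L := by
    refine le_trans ?_ hLL
    rw [hL₀]
    exact (le_max_right _ _).trans (le_max_right _ _)
  have hL2 : 2 ≤ L := by linarith
  have hL0 : 0 < L := by linarith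
  obtain ⟨y, hy⟩ : ∃ y : ℕ, y = ⌊L ^ A⌋₊ := ⟨_, rfl⟩
  have hyup : (y : ℝ) ≤ L ^ A := by
    rw [hy]
    exact Nat.floor_le (by positivity)
  have hylow : L ^ A < (y : ℝ) + 1 := by
    rw [hy]
    exact Nat.lt_floor_add_one _
  have hLL2 : L ^ 2 ≤ L ^ A := by
    rw [← Real.rpow_natCast]
    exact Real.rpow_le_rpow_of_exponent_le (by linarith) (by push_cast; linarith)
  have hyL : L ≤ (y : ℝ) := by nlinarith
  have hy2r : (2 : ℝ) ≤ y := by linarith
  have hy2 : 2 ≤ y := by exact_mod_cast hy2r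
  have hy0 : (0 : ℝ) < y := by linarith
  have hyy₀ : y₀ ≤ y := by
    have : (y₀ : ℝ) ≤ y := by linarith
    exact_mod_cast this
  have hlogy : 0 < Real.log (y : ℝ) := Real.log_pos (by linarith)
  have hC₂y : C₂ ≤ √(y : ℝ) := Real.le_sqrt_of_sq_le (by linarith)
  -- the size of `y ^ e`
  have hye : 32 * L * Real.log y ≤ (y : ℝ) ^ e := by
    have h1 : Real.log y ≤ A * L := by
      have h2 := Real.log_le_log hy0 hyup
      rw [Real.log_rpow hL0] at h2
      have h3 := Real.log_le_sub_one_of_pos hL0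
      have h4 : A * Real.log L ≤ A * L := mul_le_mul_of_nonneg_left (by linarith) (by linarith)
      linarith
    have h2 : L ^ 3 / 2 ≤ (y : ℝ) ^ e := by
      have h3 : L ^ A / 2 ≤ y := by linarith
      have h4 : (L ^ A / 2) ^ e ≤ (y : ℝ) ^ e := Real.rpow_le_rpow (by positivity) h3 he0.le
      rw [Real.div_rpow (by positivity) (by norm_num), ← Real.rpow_mul hL0.le, hAe] at h4
      have h5 : (2 : ℝ) ^ e ≤ 2 := by
        calc (2 : ℝ) ^ e ≤ 2 ^ (1 : ℝ) := Real.rpow_le_rpow_of_exponent_le (by norm_num) (by linarith)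
          _ = 2 := Real.rpow_one _
      have h6 : L ^ (3 : ℝ) = L ^ 3 := by
        rw [← Real.rpow_natCast]
        norm_num
      rw [h6] at h4
      refine le_trans ?_ h4
      exact div_le_div_of_nonneg_left (by positivity) (by positivity) h5
    have h3 : 32 * L * Real.log y ≤ 32 * L * (A * L) :=
      mul_le_mul_of_nonneg_left h1 (by positivity)
    have h4 : 64 * A * L ^ 2 ≤ L * L ^ 2 := mul_le_mul_of_nonneg_right hLA (by positivity)
    nlinarith
  obtain ⟨z, hz⟩ : ∃ z : ℝ, z = (y : ℝ) ^ (1 - e) := ⟨_, rfl⟩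
  have hz0 : 0 < z := by rw [hz]; positivity
  have hzy : (y : ℝ) ^ e * z = y := by
    rw [hz, ← Real.rpow_add hy0]
    have : e + (1 - e) = 1 := by ring
    rw [this, Real.rpow_one]
  have hzs : √(y : ℝ) ≤ z := by
    rw [hz, Real.sqrt_eq_rpow]
    exact Real.rpow_le_rpow_of_exponent_le (by linarith) (by linarith)
  have hz1 : 1 ≤ z := by
    refine le_trans ?_ hzs
    rw [Real.one_le_sqrt]
    linarith
  have hzley : z ≤ y := by
    rw [hz]
    calc (y : ℝ) ^ (1 - e) ≤ (y : ℝ) ^ (1 : ℝ) :=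
          Real.rpow_le_rpow_of_exponent_le (by linarith) (by linarith)
      _ = y := Real.rpow_one _
  have hmain1 : 8 * L * z ≤ (y : ℝ) / (4 * Real.log y) := by
    rw [le_div_iff₀ (by positivity)]
    calc 8 * L * z * (4 * Real.log y) = 32 * L * Real.log y * z := by ring
      _ ≤ (y : ℝ) ^ e * z := mul_le_mul_of_nonneg_right hye hz0.le
      _ = y := hzy
  -- the primes
  obtain ⟨P, hP⟩ : ∃ P : Finset ℕ, P = (Pool.Agent.W627.LT.PQ y).filter (fun p : ℕ =>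
    ¬ (p : ℤ) ∣ bad g ∧ ¬ (p : ℤ) ∣ h.leadingCoeff ∧ (8 * D) ^ 2 ≤ p) := ⟨_, rfl⟩
  have hPQ := hy₀ y hyy₀
  have hPQmem : ∀ p ∈ Pool.Agent.W627.LT.PQ y, (3 ≤ p ∧ p ≤ y) ∧ p.Prime := by
    intro p hp
    unfold Pool.Agent.W627.LT.PQ at hp
    rw [mem_filter, mem_Icc] at hp
    exact hp
  have hM1 : (1 : ℝ) ≤ (T : ℝ) ^ B := one_le_pow₀ hT1
  have hlogM : Real.log ((T : ℝ) ^ B) = B * L := by rw [Real.log_pow, hL]
  have hBr : (0 : ℝ) ≤ B := Nat.cast_nonneg B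
  have hF1 : (((Pool.Agent.W627.LT.PQ y).filter (fun p : ℕ => (p : ℤ) ∣ bad g)).card : ℝ) ≤
      Cb * (1 + B) * L := by
    have h1 := hbadp g ((T : ℝ) ^ B) hM1 (by omega) hsep hgc (Pool.Agent.W627.LT.PQ y)
      (fun p hp => (hPQmem p hp).2)
    rw [hlogM] at h1
    refine h1.trans ?_
    rw [mul_assoc]
    apply mul_le_mul_of_nonneg_left _ hCb.le
    nlinarith
  have hF2 : (((Pool.Agent.W627.LT.PQ y).filter
      (fun p : ℕ => (p : ℤ) ∣ h.leadingCoeff)).card : ℝ) ≤ 2 * B * L := by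
    have h0 : h.leadingCoeff.natAbs ≠ 0 := Int.natAbs_ne_zero.mpr (leadingCoeff_ne_zero.2 hh0)
    have h1 : (Pool.Agent.W627.LT.PQ y).filter (fun p : ℕ => (p : ℤ) ∣ h.leadingCoeff) ⊆
        h.leadingCoeff.natAbs.primeFactors := by
      intro p hp
      rw [mem_filter] at hp
      exact Nat.mem_primeFactors.mpr ⟨(hPQmem p hp.1).2, Int.natCast_dvd.mp hp.2, h0⟩
    have h2 := Pool.Agent.Y549.SP.SPL.card_primeFactors_le _ h0
    have h3 : (((Pool.Agent.W627.LT.PQ y).filter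
      (fun p : ℕ => (p : ℤ) ∣ h.leadingCoeff)).card : ℝ) ≤
        h.leadingCoeff.natAbs.primeFactors.card := by exact_mod_cast card_le_card h1
    have h4 : ((h.leadingCoeff.natAbs : ℕ) : ℝ) ≤ (T : ℝ) ^ B := by
      rw [Nat.cast_natAbs, Int.cast_abs]
      exact hhc _
    have h5 := Real.log_le_log (by exact_mod_cast Nat.pos_of_ne_zero h0) h4
    rw [hlogM] at h5
    linarith
  have hF3 : (((Pool.Agent.W627.LT.PQ y).filter (fun p : ℕ => p < (8 * D) ^ 2)).card : ℝ) ≤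
      (8 * D) ^ 2 * L := by
    have h1 : (Pool.Agent.W627.LT.PQ y).filter (fun p : ℕ => p < (8 * D) ^ 2) ⊆
        range ((8 * D) ^ 2) := by
      intro p hp
      rw [mem_filter] at hp
      exact mem_range.2 hp.2
    have h2 := card_le_card h1
    rw [card_range] at h2
    have h3 : (((Pool.Agent.W627.LT.PQ y).filter (fun p : ℕ => p < (8 * D) ^ 2)).card : ℝ) ≤
      (8 * D) ^ 2 := by exact_mod_cast h2
    have h4 : (0 : ℝ) ≤ (8 * D) ^ 2 := by positivity
    nlinarith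
  have hPcard : 8 * L * z ≤ (P.card : ℝ) := by
    have h1 : Pool.Agent.W627.LT.PQ y ⊆ P ∪
        ((Pool.Agent.W627.LT.PQ y).filter (fun p : ℕ => (p : ℤ) ∣ bad g) ∪
          ((Pool.Agent.W627.LT.PQ y).filter (fun p : ℕ => (p : ℤ) ∣ h.leadingCoeff) ∪
            (Pool.Agent.W627.LT.PQ y).filter (fun p : ℕ => p < (8 * D) ^ 2))) := by
      intro p hp
      rw [mem_union, mem_union, mem_union, hP, mem_filter, mem_filter, mem_filter, mem_filter]
      by_cases k1 : (p : ℤ) ∣ bad g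
      · exact Or.inr (Or.inl ⟨hp, k1⟩)
      by_cases k2 : (p : ℤ) ∣ h.leadingCoeff
      · exact Or.inr (Or.inr (Or.inl ⟨hp, k2⟩))
      by_cases k3 : p < (8 * D) ^ 2
      · exact Or.inr (Or.inr (Or.inr ⟨hp, k3⟩))
      · exact Or.inl ⟨hp, k1, k2, not_lt.1 k3⟩
    have h2 := (card_le_card h1).trans ((card_union_le _ _).trans
      (Nat.add_le_add_left ((card_union_le _ _).trans
        (Nat.add_le_add_left (card_union_le _ _) _)) _))
    have h3 : ((Pool.Agent.W627.LT.PQ y).card : ℝ) ≤ P.card +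
        (((Pool.Agent.W627.LT.PQ y).filter (fun p : ℕ => (p : ℤ) ∣ bad g)).card +
          (((Pool.Agent.W627.LT.PQ y).filter (fun p : ℕ => (p : ℤ) ∣ h.leadingCoeff)).card +
            ((Pool.Agent.W627.LT.PQ y).filter (fun p : ℕ => p < (8 * D) ^ 2)).card)) := by
      exact_mod_cast h2
    have h4 : C₂ * L ≤ (y : ℝ) / (4 * Real.log y) := by
      refine le_trans ?_ hmain1
      have h5 : C₂ ≤ z := hC₂y.trans hzs
      have h6 : C₂ * L ≤ z * L := mul_le_mul_of_nonneg_right h5 hL0.le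
      have h7 : 0 ≤ z * L := by positivity
      linarith
    have h5 : (y : ℝ) / (2 * Real.log y) = 2 * ((y : ℝ) / (4 * Real.log y)) := by
      field_simp
      ring
    have h6 : C₂ * L = Cb * (1 + B) * L + 2 * B * L + (8 * D) ^ 2 * L := by
      rw [hC₂]
      ring
    rw [h5] at hPQ
    linarith
  -- the number of prime factors of the moduli
  obtain ⟨j, hj⟩ : ∃ j : ℕ, j = Nat.log (y ^ 2) N := ⟨_, rfl⟩
  have hy1 : 1 < y ^ 2 := by nlinarith
  have hyN : y ^ 2 ≤ N := by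
    have h1 : ((y : ℝ)) ^ 2 ≤ (L ^ A) ^ 2 := pow_le_pow_left₀ hy0.le hyup 2
    have h2 : (L ^ A) ^ 2 = L ^ (A * 2) := by
      rw [← Real.rpow_natCast, ← Real.rpow_mul hL0.le]
      norm_num
    have h3 : L ^ (A * 2) ≤ L ^ C := Real.rpow_le_rpow_of_exponent_le (by linarith) (by linarith)
    have h4 : ((y : ℝ)) ^ 2 ≤ N := by
      rw [h2] at h1
      exact h1.trans (h3.trans hN1)
    exact_mod_cast h4
  have hj1 : 1 ≤ j := by
    rw [hj]
    exact Nat.log_pos hy1 hyN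
  have hjlow : (y ^ 2) ^ j ≤ N := by
    rw [hj]
    exact Nat.pow_log_le_self _ (by omega)
  have hjup : N < (y ^ 2) ^ (j + 1) := by
    rw [hj]
    exact Nat.lt_pow_succ_log_self hy1 _
  have hjL : (j : ℝ) ≤ L := by
    have h1 : Real.exp j ≤ Real.exp L := by
      rw [← hTe]
      calc Real.exp j = Real.exp 1 ^ j := by rw [← Real.exp_nat_mul, mul_one]
        _ ≤ ((y : ℝ) ^ 2) ^ j := by
            apply pow_le_pow_left₀ (Real.exp_pos _).le
            have := Real.exp_one_lt_d9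
            nlinarith
        _ ≤ N := by exact_mod_cast hjlow
        _ ≤ T := hNT
    exact Real.exp_le_exp.1 h1
  have hj0 : (0 : ℝ) < j := by exact_mod_cast hj1
  have h2jP : 2 * j ≤ P.card := by
    have h1 : (2 : ℝ) * j ≤ P.card := by
      have h2 : 8 * L * 1 ≤ 8 * L * z := mul_le_mul_of_nonneg_left hz1 (by positivity)
      linarith
    exact_mod_cast h1
  have hyn : y < n := by
    have h1 : L ^ A < L ^ C := Real.rpow_lt_rpow_of_exponent_lt (by linarith) (by linarith)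
    have h2 : (y : ℝ) < n := by linarith
    exact_mod_cast h2
  have hsv := sieve_bound g h D hg1 hgD hhD a N j y hNn hjlow P (by
    intro p hp
    rw [hP, mem_filter] at hp
    obtain ⟨hp1, hp2, hp3, hp4⟩ := hp
    obtain ⟨⟨k1, k2⟩, k3⟩ := hPQmem p hp1
    exact ⟨k3, k2, by omega, hp2, hp3, hp4⟩) S hS (by
    intro m hm p hp
    rw [hP, mem_filter] at hp
    obtain ⟨⟨k1, k2⟩, k3⟩ := hPQmem p hp.1
    exact hsq m hm p k3 (by omega) (by omega))
  have hch := choose_ge j P.card h2jP hj1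
  have hlow : z ^ j ≤ (P.card.choose j : ℝ) * (1 / 4) ^ j := by
    have h1 : 4 * z ≤ (P.card : ℝ) / (2 * j) := by
      rw [le_div_iff₀ (by positivity)]
      calc 4 * z * (2 * j) = 8 * j * z := by ring
        _ ≤ 8 * L * z := by
            apply mul_le_mul_of_nonneg_right _ hz0.le
            linarith
        _ ≤ _ := hPcard
    have h2 : (4 * z) ^ j ≤ ((P.card : ℝ) / (2 * j)) ^ j := pow_le_pow_left₀ (by positivity) h1 j
    calc z ^ j = (4 * z) ^ j * (1 / 4) ^ j := by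
          rw [← mul_pow]
          congr 1
          ring
      _ ≤ _ := mul_le_mul_of_nonneg_right (h2.trans hch) (by positivity)
  have hS1 : (S.card : ℝ) * z ^ j ≤ 12 * N :=
    (mul_le_mul_of_nonneg_left hlow (Nat.cast_nonneg _)).trans hsv
  -- the square root of `N`
  have hsqN : √(N : ℝ) ≤ (y : ℝ) ^ j * y := by
    rw [Real.sqrt_le_left (by positivity)]
    have h1 : (N : ℝ) ≤ ((y : ℝ) ^ 2) ^ (j + 1) := by exact_mod_cast hjup.le
    refine h1.trans (le_of_eq ?_)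
    ring
  have hz2 : √(N : ℝ) ^ (1 - e) ≤ z ^ j * y := by
    have h1 : √(N : ℝ) ^ (1 - e) ≤ ((y : ℝ) ^ j * y) ^ (1 - e) :=
      Real.rpow_le_rpow (Real.sqrt_nonneg _) hsqN (by linarith)
    rw [Real.mul_rpow (by positivity) hy0.le, ← hz] at h1
    have h2 : ((y : ℝ) ^ j) ^ (1 - e) = z ^ j := by
      rw [hz, ← Real.rpow_natCast, ← Real.rpow_mul hy0.le, ← Real.rpow_natCast, ← Real.rpow_mul hy0.le,
        mul_comm]
    rw [h2] at h1
    exact h1.trans (mul_le_mul_of_nonneg_left hzley (by positivity))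
  have hsqpos : 0 < √(N : ℝ) ^ (1 - e) := Real.rpow_pos_of_pos (Real.sqrt_pos.2 hNpos) _
  have hNN : (N : ℝ) = √(N : ℝ) ^ (1 - e) * (N : ℝ) ^ (1 / 2 + e / 2) := by
    rw [Real.sqrt_eq_rpow, ← Real.rpow_mul hNpos.le, ← Real.rpow_add hNpos]
    have : 1 / 2 * (1 - e) + (1 / 2 + e / 2) = 1 := by ring
    rw [this, Real.rpow_one]
  have hfin1 : (S.card : ℝ) ≤ 12 * y * (N : ℝ) ^ (1 / 2 + e / 2) := by
    have h1 : (S.card : ℝ) * √(N : ℝ) ^ (1 - e) ≤
        12 * y * (N : ℝ) ^ (1 / 2 + e / 2) * √(N : ℝ) ^ (1 - e) := by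
      calc (S.card : ℝ) * √(N : ℝ) ^ (1 - e) ≤ S.card * (z ^ j * y) :=
            mul_le_mul_of_nonneg_left hz2 (Nat.cast_nonneg _)
        _ = S.card * z ^ j * y := by ring
        _ ≤ 12 * N * y := mul_le_mul_of_nonneg_right hS1 hy0.le
        _ = 12 * y * N := by ring
        _ = 12 * y * (√(N : ℝ) ^ (1 - e) * (N : ℝ) ^ (1 / 2 + e / 2)) := by rw [← hNN]
        _ = _ := by ring
    exact le_of_mul_le_mul_right h1 hsqpos
  have hyNe : (y : ℝ) ≤ (N : ℝ) ^ (e / 2) := by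
    refine hyup.trans ?_
    have h1 : (L ^ C) ^ (e / 2) ≤ (N : ℝ) ^ (e / 2) :=
      Real.rpow_le_rpow (by positivity) hN1 (by positivity)
    rw [← Real.rpow_mul hL0.le, hCe] at h1
    exact h1
  have hfin2 : (S.card : ℝ) ≤ 12 * (N : ℝ) ^ (1 / 2 + e) := by
    refine hfin1.trans ?_
    have h1 : (N : ℝ) ^ (1 / 2 + e) = (N : ℝ) ^ (e / 2) * (N : ℝ) ^ (1 / 2 + e / 2) := by
      rw [← Real.rpow_add hNpos]
      congr 1
      ring
    rw [h1]
    have h2 : (y : ℝ) * (N : ℝ) ^ (1 / 2 + e / 2) ≤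
        (N : ℝ) ^ (e / 2) * (N : ℝ) ^ (1 / 2 + e / 2) :=
      mul_le_mul_of_nonneg_right hyNe (by positivity)
    linarith
  have hfin3 : (N : ℝ) ^ (1 / 2 + e) ≤ (N : ℝ) ^ (1 / 2 + δ) :=
    Real.rpow_le_rpow_of_exponent_le hN1' (by linarith)
  have h5 : 0 ≤ Real.exp L₀ * (N : ℝ) ^ (1 / 2 + δ) := by positivity
  rw [add_mul]
  linarith

end Pool.Agent.R418.CF
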